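import Pool.Agent.Helper14.FO.Defs2

/-!
# MP_190084_co, module SCL: an optimal matrix gives a certificate
-/

set_option autoImplicit false

namespace Pool.Agent.Helper14.FO

open Finset

/-- admissible matrices -/
def scl_K {V : Type} [Fintype V] (X : SimpleGraph V) (B : V → V → ℝ) : Prop :=
  (∀ x y, B x y = B y x) ∧ (∀ f : V → ℝ, 0 ≤ ∑ x, ∑ y, B x y * f x * f y) ∧
    (∀ x y, x ≠ y → ¬ X.Adj x y → B x y = 0) ∧ ∑ x, B x x = 1

theorem scl_two {V : Type} [Fintype V] [DecidableEq V] (B : V → V → ℝ)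
    (hs : ∀ x y, B x y = B y x) (hp : ∀ f : V → ℝ, 0 ≤ ∑ x, ∑ y, B x y * f x * f y)
    (a b : V) (s t : ℝ) : 0 ≤ s ^ 2 * B a a + 2 * s * t * B a b + t ^ 2 * B b b := by
  have h1 := hp (fun x => s * (if x = a then 1 else 0) + t * (if x = b then 1 else 0))
  have h2 : ∑ x, ∑ y, B x y * (s * (if x = a then 1 else 0) + t * (if x = b then 1 else 0)) *
      (s * (if y = a then 1 else 0) + t * (if y = b then 1 else 0)) =
      s ^ 2 * B a a + 2 * s * t * B a b + t ^ 2 * B b b := by
    have h3 : ∀ x y, B x y * (s * (if x = a then 1 else 0) + t * (if x = b then 1 else 0)) *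
      (s * (if y = a then 1 else 0) + t * (if y = b then 1 else 0)) =
      (if y = a then (if x = a then s ^ 2 * B x y else 0) + (if x = b then s * t * B x y else 0)
        else 0) + (if y = b then (if x = a then s * t * B x y else 0) +
        (if x = b then t ^ 2 * B x y else 0) else 0) := by
      intro x y
      split_ifs <;> ring
    simp only [h3, Finset.sum_add_distrib, Finset.sum_ite_eq', Finset.mem_univ, if_true]
    rw [hs b a]
    ring
  rw [h2] at h1
  exact h1

theorem scl_diag {V : Type} [Fintype V] [DecidableEq V] (B : V → V → ℝ)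
    (hs : ∀ x y, B x y = B y x) (hp : ∀ f : V → ℝ, 0 ≤ ∑ x, ∑ y, B x y * f x * f y)
    (a : V) : 0 ≤ B a a := by
  have h := scl_two B hs hp a a 1 0
  linarith

theorem scl_zero {V : Type} [Fintype V] [DecidableEq V] (B : V → V → ℝ)
    (hs : ∀ x y, B x y = B y x) (hp : ∀ f : V → ℝ, 0 ≤ ∑ x, ∑ y, B x y * f x * f y)
    (a b : V) (h0 : B a a = 0) : B a b = 0 := by
  by_contra hc
  have h1 := scl_two B hs hp a b (-(B b b + 1) / (2 * B a b)) 1
  rw [h0] at h1
  have h3 : 2 * (-(B b b + 1) / (2 * B a b)) * 1 * B a b = -(B b b + 1) := by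
    field_simp
  rw [h3] at h1
  linarith

theorem scl_bound {V : Type} [Fintype V] [DecidableEq V] (B : V → V → ℝ)
    (hs : ∀ x y, B x y = B y x) (hp : ∀ f : V → ℝ, 0 ≤ ∑ x, ∑ y, B x y * f x * f y)
    (ht : ∑ x, B x x = 1) (a b : V) : -1 ≤ B a b ∧ B a b ≤ 1 := by
  have h1 : ∀ c, B c c ≤ 1 := by
    intro c
    rw [← ht]
    exact Finset.single_le_sum (f := fun x => B x x) (fun x _ => scl_diag B hs hp x)
      (Finset.mem_univ c)
  have h2 := scl_two B hs hp a b 1 1
  have h3 := scl_two B hs hp a b 1 (-1)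
  have h4 := h1 a
  have h5 := h1 b
  constructor <;> linarith

theorem scl_closed {V : Type} [Fintype V] (X : SimpleGraph V) :
    IsClosed {B : V → V → ℝ | scl_K X B} := by
  have h1 : IsClosed {B : V → V → ℝ | ∀ x y, B x y = B y x} := by
    simp only [Set.ofPred_forall]
    exact isClosed_iInter fun x => isClosed_iInter fun y =>
      isClosed_eq (by fun_prop) (by fun_prop)
  have h2 : IsClosed {B : V → V → ℝ | ∀ f : V → ℝ, 0 ≤ ∑ x, ∑ y, B x y * f x * f y} := by
    simp only [Set.ofPred_forall]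
    exact isClosed_iInter fun f => isClosed_le (by fun_prop) (by fun_prop)
  have h3 : IsClosed {B : V → V → ℝ | ∀ x y, x ≠ y → ¬ X.Adj x y → B x y = 0} := by
    simp only [Set.ofPred_forall]
    exact isClosed_iInter fun x => isClosed_iInter fun y => isClosed_iInter fun _ =>
      isClosed_iInter fun _ => isClosed_eq (by fun_prop) (by fun_prop)
  have h4 : IsClosed {B : V → V → ℝ | ∑ x, B x x = 1} :=
    isClosed_eq (by fun_prop) (by fun_prop)
  exact h1.inter (h2.inter (h3.inter h4))

theorem scl_compact {V : Type} [Fintype V] [DecidableEq V] (X : SimpleGraph V) :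
    IsCompact {B : V → V → ℝ | scl_K X B} := by
  apply IsCompact.of_isClosed_subset
    (isCompact_Icc (a := fun _ _ : V => (-1 : ℝ)) (b := fun _ _ : V => (1 : ℝ))) (scl_closed X)
  intro B hB
  exact ⟨fun x y => (scl_bound B hB.1 hB.2.1 hB.2.2.2 x y).1,
    fun x y => (scl_bound B hB.1 hB.2.1 hB.2.2.2 x y).2⟩

theorem scl_lin (a b : ℝ) (hb : 0 ≤ b) (h : ∀ s : ℝ, 0 ≤ 2 * s * a + s ^ 2 * b) : a = 0 := by
  have h1 := h (-a / (b + 1))
  have h2 : (0 : ℝ) < b + 1 := by linarith
  have h3 : 2 * (-a / (b + 1)) * a + (-a / (b + 1)) ^ 2 * b = -(a ^ 2 * (b + 2)) / (b + 1) ^ 2 := by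
    field_simp
    ring
  rw [h3] at h1
  by_contra hc
  have h4 : 0 < a ^ 2 * (b + 2) / (b + 1) ^ 2 := by positivity
  have h5 : -(a ^ 2 * (b + 2)) / (b + 1) ^ 2 = -(a ^ 2 * (b + 2) / (b + 1) ^ 2) := by ring
  rw [h5] at h1
  linarith

theorem scl_sub {V : Type} [Fintype V] (p : V → Prop) [DecidablePred p] (φ : V → ℝ)
    (h : ∀ x, ¬ p x → φ x = 0) : ∑ x, φ x = ∑ x : {x // p x}, φ x.1 := by
  rw [← Finset.sum_subtype (Finset.univ.filter p) (by simp) φ]
  symm
  apply Finset.sum_filter_of_ne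
  intro x _ hx
  by_contra hc
  exact hx (h x hc)

/-- maximality gives the upper bound for all scalings -/
theorem scl_scale {V : Type} [Fintype V] [DecidableEq V] (X : SimpleGraph V) (B : V → V → ℝ)
    (hB : scl_K X B) (T : ℝ) (hm : ∀ C, scl_K X C → ∑ x, ∑ y, C x y ≤ T) (d : V → ℝ) :
    ∑ x, ∑ y, B x y * d x * d y ≤ T * ∑ x, B x x * d x ^ 2 := by
  obtain ⟨hs, hp, hz, ht⟩ := hB
  have h0 : ∀ x, 0 ≤ B x x * d x ^ 2 := fun x =>
    mul_nonneg (scl_diag B hs hp x) (sq_nonneg _)
  have h1 : 0 ≤ ∑ x, B x x * d x ^ 2 := Finset.sum_nonneg fun x _ => h0 x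
  rcases h1.lt_or_eq with h2 | h2
  · set s := ∑ x, B x x * d x ^ 2 with hsdef
    have h3 := hm (fun x y => B x y * d x * d y / s) ⟨?_, ?_, ?_, ?_⟩
    · have h4 : ∑ x, ∑ y, B x y * d x * d y / s = (∑ x, ∑ y, B x y * d x * d y) / s := by
        simp only [Finset.sum_div]
      rw [h4, div_le_iff₀ h2] at h3
      exact h3
    · intro x y
      show B x y * d x * d y / s = B y x * d y * d x / s
      rw [hs x y]
      ring
    · intro f
      have h4 := hp (fun x => d x * f x)
      have h5 : ∑ x, ∑ y, B x y * d x * d y / s * f x * f y =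
          (∑ x, ∑ y, B x y * (d x * f x) * (d y * f y)) / s := by
        simp only [Finset.sum_div]
        refine Finset.sum_congr rfl fun x _ => Finset.sum_congr rfl fun y _ => ?_
        ring
      rw [h5]
      exact div_nonneg h4 h2.le
    · intro x y hxy hn
      show B x y * d x * d y / s = 0
      rw [hz x y hxy hn]
      simp
    · have h4 : ∑ x, B x x * d x * d x / s = (∑ x, B x x * d x ^ 2) / s := by
        rw [Finset.sum_div]
        refine Finset.sum_congr rfl fun x _ => ?_
        ring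
      rw [h4, ← hsdef]
      exact div_self h2.ne'
  · rw [← h2, mul_zero]
    apply le_of_eq
    apply Finset.sum_eq_zero
    intro x _
    apply Finset.sum_eq_zero
    intro y _
    have h3 : B x x * d x ^ 2 = 0 :=
      (Finset.sum_eq_zero_iff_of_nonneg fun x _ => h0 x).mp h2.symm x (Finset.mem_univ x)
    rcases mul_eq_zero.mp h3 with h4 | h4
    · rw [scl_zero B hs hp x y h4]
      ring
    · have h5 : d x = 0 := by
        rcases pow_eq_zero_iff (n := 2) (by norm_num) |>.mp h4 with h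
        exact h
      rw [h5]
      ring

theorem scl_row {V : Type} [Fintype V] [DecidableEq V] (X : SimpleGraph V) (B : V → V → ℝ)
    (hB : scl_K X B) (T : ℝ) (hT : 1 ≤ T) (hm : ∀ C, scl_K X C → ∑ x, ∑ y, C x y ≤ T)
    (he : ∑ x, ∑ y, B x y = T) (a : V) : ∑ y, B a y = T * B a a := by
  have h1 := scl_scale X B hB T hm
  obtain ⟨hs, hp, hz, ht⟩ := hB
  have hd := scl_diag B hs hp a
  have h2 : T * B a a - ∑ y, B a y = 0 := by
    apply scl_lin _ (T * B a a - B a a) (by nlinarith)
    intro s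
    have h3 := h1 (fun x => 1 + s * (if x = a then 1 else 0))
    have h4 : ∑ x, ∑ y, B x y * (1 + s * (if x = a then 1 else 0)) *
        (1 + s * (if y = a then 1 else 0)) = T + 2 * s * (∑ y, B a y) + s ^ 2 * B a a := by
      have h5 : ∀ x y, B x y * (1 + s * (if x = a then 1 else 0)) *
        (1 + s * (if y = a then 1 else 0)) = B x y + (if x = a then s * B x y else 0) +
          (if y = a then s * B y x else 0) +
          (if y = a then (if x = a then s ^ 2 * B x y else 0) else 0) := by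
        intro x y
        rw [hs y x]
        split_ifs <;> ring
      simp only [h5, Finset.sum_add_distrib, Finset.sum_ite_eq', Finset.mem_univ, if_true]
      rw [he]
      have h6 : ∑ x, ∑ y, (if x = a then s * B x y else 0) = s * ∑ y, B a y := by
        rw [Finset.sum_comm]
        simp only [Finset.sum_ite_eq', Finset.mem_univ, if_true]
        rw [Finset.mul_sum]
      have h7 : ∑ x, s * B a x = s * ∑ y, B a y := by rw [Finset.mul_sum]
      rw [h6, h7]
      ring
    have h8 : ∑ x, B x x * (1 + s * (if x = a then 1 else 0)) ^ 2 =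
        1 + 2 * s * B a a + s ^ 2 * B a a := by
      have h5 : ∀ x, B x x * (1 + s * (if x = a then 1 else 0)) ^ 2 =
          B x x + (if x = a then 2 * s * B x x + s ^ 2 * B x x else 0) := by
        intro x
        split_ifs <;> ring
      simp only [h5, Finset.sum_add_distrib, Finset.sum_ite_eq', Finset.mem_univ, if_true]
      rw [ht]
      ring
    rw [h4, h8] at h3
    nlinarith
  linarith

theorem st_SCL : ST_SCL := by
  intro V _ _ X θ B0 hθ h1 h2 h3 h4 h5
  obtain ⟨B, hB, hmax⟩ := (scl_compact X).exists_isMaxOn (f := fun B => ∑ x, ∑ y, B x y)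
    ⟨B0, h1, h2, h3, h4⟩ (by fun_prop)
  obtain ⟨T, hTdef⟩ : ∃ T : ℝ, ∑ x, ∑ y, B x y = T := ⟨_, rfl⟩
  have hm : ∀ C, scl_K X C → ∑ x, ∑ y, C x y ≤ T := by
    intro C hC
    have h := hmax hC
    rw [← hTdef]
    exact h
  have hT : θ ≤ T := h5.trans (hm B0 ⟨h1, h2, h3, h4⟩)
  have hT1 : 0 < T - 1 := by linarith
  have hrow := scl_row X B hB T (by linarith) hm hTdef
  have hsc := scl_scale X B hB T hm
  have hB' := hB
  obtain ⟨hs, hp, hz, ht⟩ := hB
  have hd := scl_diag B hs hp
  have hn : ∀ x, ¬ 0 < B x x → B x x = 0 := fun x hx => le_antisymm (not_lt.mp hx) (hd x)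
  have hn' : ∀ x y, ¬ 0 < B y y → B x y = 0 := fun x y hy => by
    rw [hs x y]
    exact scl_zero B hs hp y x (hn y hy)
  classical
  -- extension by zero
  have hext : ∀ f : {x // 0 < B x x} → ℝ, ∃ F : V → ℝ, (∀ x : {x // 0 < B x x}, F x.1 = f x) := by
    intro f
    refine ⟨fun x => if h : 0 < B x x then f ⟨x, h⟩ else 0, fun x => ?_⟩
    show (if h : 0 < B x.1 x.1 then f ⟨x.1, h⟩ else 0) = f x
    rw [dif_pos x.2]
  have hq1 : ∀ F : V → ℝ, ∑ x : {x // 0 < B x x}, ∑ y : {x // 0 < B x x},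
      B x.1 y.1 * F x.1 * F y.1 = ∑ x, ∑ y, B x y * F x * F y := by
    intro F
    rw [scl_sub (fun x => 0 < B x x) (fun x => ∑ y, B x y * F x * F y)
      (fun x hx => Finset.sum_eq_zero fun y _ => by
        rw [scl_zero B hs hp x y (hn x hx)]; ring)]
    refine Finset.sum_congr rfl fun x _ => ?_
    rw [scl_sub (fun y => 0 < B y y) (fun y => B x.1 y * F x.1 * F y)
      (fun y hy => by rw [hn' x.1 y hy]; ring)]
  have hq2 : ∀ F : V → ℝ, ∑ x : {x // 0 < B x x}, B x.1 x.1 * F x.1 ^ 2 =
      ∑ x, B x x * F x ^ 2 := by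
    intro F
    rw [scl_sub (fun x => 0 < B x x) (fun x => B x x * F x ^ 2)
      (fun x hx => by rw [hn x hx]; ring)]
  refine ⟨{ V := {x // 0 < B x x}
            X := X.comap Subtype.val
            ρ := fun x => B x.1 x.1
            pos := fun x => x.2
            one := ?_ }, 1 / (T - 1), by positivity, ?_, ?_, ?_, ?_⟩
  · rw [← ht, scl_sub (fun x => 0 < B x x) (fun x => B x x) hn]
  · rw [div_lt_one hT1]
    linarith
  · have hEq : ∀ f : {x // 0 < B x x} → ℝ, ∑ x : {x // 0 < B x x}, ∑ y : {x // 0 < B x x},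
        (B x.1 y.1 - if x = y then B x.1 x.1 else 0) / (T - 1) * f x * f y =
        (∑ x : {x // 0 < B x x}, ∑ y : {x // 0 < B x x}, B x.1 y.1 * f x * f y -
          ∑ x : {x // 0 < B x x}, B x.1 x.1 * f x ^ 2) / (T - 1) := by
      intro f
      rw [← Finset.sum_sub_distrib, Finset.sum_div]
      refine Finset.sum_congr rfl fun x _ => ?_
      have e1 : ∀ y : {x // 0 < B x x}, (B x.1 y.1 - if x = y then B x.1 x.1 else 0) / (T - 1) *
          f x * f y = B x.1 y.1 * f x * f y / (T - 1) -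
          if x = y then B x.1 x.1 * f x ^ 2 / (T - 1) else 0 := by
        intro y
        split_ifs with h
        · rw [← h]
          ring
        · ring
      simp only [e1, Finset.sum_sub_distrib, Finset.sum_ite_eq, Finset.mem_univ, if_true]
      rw [sub_div, Finset.sum_div]
    refine ⟨fun x y => (B x.1 y.1 - if x = y then B x.1 x.1 else 0) / (T - 1), ?_, ?_, ?_, ?_, ?_⟩
    · intro (x : {x // 0 < B x x}) (y : {x // 0 < B x x}) hxy
      show (B x.1 y.1 - if x = y then B x.1 x.1 else 0) / (T - 1) = 0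
      by_cases h : x = y
      · rw [if_pos h, h, sub_self, zero_div]
      · rw [if_neg h, hz x.1 y.1 (fun hc => h (Subtype.ext hc)) hxy, sub_self, zero_div]
    · intro (x : {x // 0 < B x x}) (y : {x // 0 < B x x})
      show (B x.1 y.1 - if x = y then B x.1 x.1 else 0) / (T - 1) =
        (B y.1 x.1 - if y = x then B y.1 y.1 else 0) / (T - 1)
      rw [hs x.1 y.1]
      by_cases h : x = y
      · rw [if_pos h, if_pos h.symm, h]
      · rw [if_neg h, if_neg (fun hc => h hc.symm)]
    · intro (x : {x // 0 < B x x})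
      show ∑ y : {x // 0 < B x x}, (B x.1 y.1 - if x = y then B x.1 x.1 else 0) / (T - 1) =
        B x.1 x.1
      rw [← Finset.sum_div, Finset.sum_sub_distrib, Finset.sum_ite_eq, if_pos (Finset.mem_univ _),
        ← scl_sub (fun y => 0 < B y y) (fun y => B x.1 y) (fun y hy => hn' x.1 y hy), hrow x.1]
      field_simp
    · intro (f : {x // 0 < B x x} → ℝ)
      show 0 ≤ ∑ x : {x // 0 < B x x}, ∑ y : {x // 0 < B x x},
        (B x.1 y.1 - if x = y then B x.1 x.1 else 0) / (T - 1) * f x * f y +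
        1 / (T - 1) * ∑ x : {x // 0 < B x x}, B x.1 x.1 * f x ^ 2
      rw [hEq f]
      have e2 : (∑ x : {x // 0 < B x x}, ∑ y : {x // 0 < B x x}, B x.1 y.1 * f x * f y -
          ∑ x : {x // 0 < B x x}, B x.1 x.1 * f x ^ 2) / (T - 1) +
          1 / (T - 1) * ∑ x : {x // 0 < B x x}, B x.1 x.1 * f x ^ 2 =
          (∑ x : {x // 0 < B x x}, ∑ y : {x // 0 < B x x}, B x.1 y.1 * f x * f y) / (T - 1) := by
        ring
      rw [e2]
      obtain ⟨F, hF⟩ := hext f
      simp only [← hF]
      rw [hq1 F]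
      exact div_nonneg (hp F) hT1.le
    · intro (f : {x // 0 < B x x} → ℝ)
      show ∑ x : {x // 0 < B x x}, ∑ y : {x // 0 < B x x},
        (B x.1 y.1 - if x = y then B x.1 x.1 else 0) / (T - 1) * f x * f y ≤
        ∑ x : {x // 0 < B x x}, B x.1 x.1 * f x ^ 2
      rw [hEq f, div_le_iff₀ hT1]
      obtain ⟨F, hF⟩ := hext f
      simp only [← hF]
      rw [hq1 F, hq2 F]
      have h := hsc F
      linarith
  · have e3 : (1 : ℝ) + 1 / (1 / (T - 1)) = T := by
      rw [one_div_one_div]
      ring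
    rw [e3]
    exact hT
  · exact ⟨Subtype.val, fun a b h => h⟩

end Pool.Agent.Helper14.FO
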