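import Pool.Agent.Helper14.FO.Defs2

/-!
# MP_190084_co, module ORK: OR-product of a complete graph with a certified graph
-/

set_option autoImplicit false

namespace Pool.Agent.Helper14.FO

open Finset

theorem ork_psd {V : Type} [Fintype V] (B : Matrix V V ℝ) (hs : ∀ x y, B x y = B y x)
    (hp : ∀ f : V → ℝ, 0 ≤ ∑ x, ∑ y, B x y * f x * f y) : B.PosSemidef := by
  refine Matrix.PosSemidef.of_dotProduct_mulVec_nonneg ?_ fun f => ?_
  · ext x y
    rw [Matrix.conjTranspose_apply, star_trivial]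
    exact hs y x
  · have h := hp f
    rw [star_trivial]
    unfold dotProduct Matrix.mulVec dotProduct
    refine h.trans (le_of_eq (Finset.sum_congr rfl fun x _ => ?_))
    rw [Finset.mul_sum]
    exact Finset.sum_congr rfl fun y _ => by ring

theorem ork_form {V : Type} [Fintype V] (B : Matrix V V ℝ) (hB : B.PosSemidef) (f : V → ℝ) :
    0 ≤ ∑ x, ∑ y, B x y * f x * f y := by
  have h := hB.dotProduct_mulVec_nonneg f
  rw [star_trivial] at h
  unfold dotProduct Matrix.mulVec dotProduct at h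
  refine h.trans (le_of_eq (Finset.sum_congr rfl fun x _ => ?_))
  rw [Finset.mul_sum]
  exact Finset.sum_congr rfl fun y _ => by ring

theorem ork_symm {V : Type} [Fintype V] (B : Matrix V V ℝ) (hB : B.PosSemidef) (x y : V) :
    B x y = B y x := by
  have h := hB.1
  have h1 := congrFun (congrFun h y) x
  rw [Matrix.conjTranspose_apply, star_trivial] at h1
  exact h1

theorem ork_one {V : Type} [Fintype V] [DecidableEq V] (c : ℝ) (f : V → ℝ) :
    ∑ x, ∑ y, (c • (1 : Matrix V V ℝ)) x y * f x * f y = c * ∑ x, f x ^ 2 := by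
  rw [Finset.mul_sum]
  refine Finset.sum_congr rfl fun x _ => ?_
  have h : ∀ y, (c • (1 : Matrix V V ℝ)) x y * f x * f y =
      if x = y then c * f x ^ 2 else 0 := by
    intro y
    rw [Matrix.smul_apply, Matrix.one_apply, smul_eq_mul]
    split_ifs with h
    · rw [h]
      ring
    · ring
  simp only [h, Finset.sum_ite_eq, Finset.mem_univ, if_true]

/-- the certificate in the form of inequalities for sums -/
theorem ork_low {G : Type} [Fintype G] [DecidableEq G] (A : Matrix G G ℝ) (M n : ℝ)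
    (hn : n = Fintype.card G) (hn0 : 0 < n) (hr : ∀ x, ∑ y, A x y = 1)
    (h1 : (A + M • (1 : Matrix G G ℝ)).PosSemidef) (hs : ∀ x y, A x y = A y x) (f : G → ℝ) :
    -M * ∑ x, f x ^ 2 + (1 + M) * (∑ x, f x) ^ 2 / n ≤ ∑ x, ∑ y, A x y * f x * f y := by
  obtain ⟨s, hsd⟩ : ∃ s, s = ∑ x, f x := ⟨_, rfl⟩
  have h2 := ork_form _ h1 (fun x => f x - s / n)
  have h3 : ∑ x, ∑ y, (A + M • (1 : Matrix G G ℝ)) x y * (f x - s / n) * (f y - s / n) =
      ∑ x, ∑ y, A x y * (f x - s / n) * (f y - s / n) + M * ∑ x, (f x - s / n) ^ 2 := by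
    rw [← ork_one M (fun x => f x - s / n), ← Finset.sum_add_distrib]
    refine Finset.sum_congr rfl fun x _ => ?_
    rw [← Finset.sum_add_distrib]
    refine Finset.sum_congr rfl fun y _ => ?_
    rw [Matrix.add_apply]
    ring
  have h4 : ∑ x, (f x - s / n) ^ 2 = ∑ x, f x ^ 2 - s ^ 2 / n := by
    have e1 : ∀ x, (f x - s / n) ^ 2 = f x ^ 2 - 2 * (s / n) * f x + (s / n) ^ 2 := by
      intro x
      ring
    simp only [e1, Finset.sum_add_distrib, Finset.sum_sub_distrib, ← Finset.mul_sum, ← hsd,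
      Finset.sum_const, Finset.card_univ, nsmul_eq_mul, ← hn]
    field_simp
    ring
  have h5 : ∑ x, ∑ y, A x y * (f x - s / n) * (f y - s / n) =
      ∑ x, ∑ y, A x y * f x * f y - s ^ 2 / n := by
    have e1 : ∀ x, ∑ y, A x y * (f x - s / n) * (f y - s / n) =
        ∑ y, A x y * f x * f y - s / n * f x - s / n * ∑ y, A x y * f y + (s / n) ^ 2 := by
      intro x
      have e2 : ∀ y, A x y * (f x - s / n) * (f y - s / n) = A x y * f x * f y -
          s / n * f x * A x y - s / n * (A x y * f y) + (s / n) ^ 2 * A x y := by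
        intro y
        ring
      simp only [e2, Finset.sum_add_distrib, Finset.sum_sub_distrib, ← Finset.mul_sum, hr x,
        mul_one]
    have e3 : ∑ x, ∑ y, A x y * f y = s := by
      rw [Finset.sum_comm, hsd]
      refine Finset.sum_congr rfl fun y _ => ?_
      rw [← Finset.sum_mul]
      have e4 : ∑ x, A x y = 1 := by
        rw [← hr y]
        exact Finset.sum_congr rfl fun x _ => hs x y
      rw [e4, one_mul]
    simp only [e1, Finset.sum_add_distrib, Finset.sum_sub_distrib, ← Finset.mul_sum, ← hsd, e3,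
      Finset.sum_const, Finset.card_univ, nsmul_eq_mul, ← hn]
    field_simp
    ring
  rw [h3, h4, h5] at h2
  rw [← hsd]
  have h6 : (1 + M) * s ^ 2 / n = s ^ 2 / n + M * (s ^ 2 / n) := by ring
  rw [h6]
  linarith

theorem ork_up {G : Type} [Fintype G] [DecidableEq G] (A : Matrix G G ℝ)
    (h1 : ((1 : Matrix G G ℝ) - A).PosSemidef) (f : G → ℝ) :
    ∑ x, ∑ y, A x y * f x * f y ≤ ∑ x, f x ^ 2 := by
  have h2 := ork_form _ h1 f
  have h3 : ∑ x, ∑ y, ((1 : Matrix G G ℝ) - A) x y * f x * f y =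
      ∑ x, f x ^ 2 - ∑ x, ∑ y, A x y * f x * f y := by
    have e1 := ork_one 1 f
    rw [one_smul, one_mul] at e1
    rw [← e1, ← Finset.sum_sub_distrib]
    refine Finset.sum_congr rfl fun x _ => ?_
    rw [← Finset.sum_sub_distrib]
    refine Finset.sum_congr rfl fun y _ => ?_
    rw [Matrix.sub_apply]
    ring
  rw [h3] at h2
  linarith

theorem ork_upt {W ι : Type} [Fintype ι] (Y : SimpleGraph W) (θ : ℝ) (v : W → ι → ℝ)
    (h1 : ∀ y, ∑ i, v y i ^ 2 = θ - 1) (h2 : ∀ x y, Y.Adj x y → ∑ i, v x i * v y i = -1) :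
    UpT Y θ := by
  refine ⟨Fintype.card ι, fun y k => v y ((Fintype.equivFin ι).symm k), fun y => ?_,
    fun x y h => ?_⟩
  · rw [← h1 y]
    exact Equiv.sum_comp (Fintype.equivFin ι).symm (fun i => v y i ^ 2)
  · rw [← h2 x y h]
    exact Equiv.sum_comp (Fintype.equivFin ι).symm (fun i => v x i * v y i)

/-- the matrix -/
noncomputable def ork_A {J G : Type} [DecidableEq J] (A : Matrix G G ℝ) (b e : ℝ) :
    Matrix (J × G) (J × G) ℝ :=
  fun x y => if x.1 = y.1 then b * A x.2 y.2 else e

theorem ork_A_form {J G : Type} [DecidableEq J] [Fintype J] [Fintype G] (A : Matrix G G ℝ)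
    (b e : ℝ) (f : J × G → ℝ) :
    ∑ x, ∑ y, ork_A A b e x y * f x * f y =
      b * ∑ i, ∑ g, ∑ g', A g g' * f (i, g) * f (i, g') - e * ∑ i, (∑ g, f (i, g)) ^ 2 +
        e * (∑ i, ∑ g, f (i, g)) ^ 2 := by
  have h1 : ∑ x, ∑ y, ork_A A b e x y * f x * f y = ∑ i, ∑ i',
      (if i = i' then b * ∑ g, ∑ g', A g g' * f (i, g) * f (i, g') -
        e * (∑ g, f (i, g)) ^ 2 else 0) + ∑ i, ∑ i', e * (∑ g, f (i, g)) * ∑ g, f (i', g) := by
    rw [Fintype.sum_prod_type, ← Finset.sum_add_distrib]
    refine Finset.sum_congr rfl fun i _ => ?_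
    have h2 : ∀ g, ∑ y, ork_A A b e (i, g) y * f (i, g) * f y =
        ∑ i', ∑ g', ork_A A b e (i, g) (i', g') * f (i, g) * f (i', g') := by
      intro g
      rw [Fintype.sum_prod_type]
    simp only [h2]
    rw [Finset.sum_comm, ← Finset.sum_add_distrib]
    refine Finset.sum_congr rfl fun i' _ => ?_
    by_cases h : i = i'
    · rw [if_pos h, ← h]
      have h3 : ∀ g g', ork_A A b e (i, g) (i, g') * f (i, g) * f (i, g') =
          b * (A g g' * f (i, g) * f (i, g')) := by
        intro g g'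
        unfold ork_A
        rw [if_pos rfl]
        ring
      simp only [h3, ← Finset.mul_sum]
      ring
    · rw [if_neg h]
      have h3 : ∀ g g', ork_A A b e (i, g) (i', g') * f (i, g) * f (i', g') =
          e * f (i, g) * f (i', g') := by
        intro g g'
        unfold ork_A
        rw [if_neg h]
      simp only [h3, ← Finset.mul_sum, ← Finset.sum_mul]
      ring
  rw [h1]
  simp only [Finset.sum_ite_eq, Finset.mem_univ, if_true, Finset.sum_sub_distrib,
    ← Finset.mul_sum, ← Finset.sum_mul]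
  ring

theorem ork_cert (j : ℕ) [NeZero j] {G : Type} [Fintype G] [DecidableEq G] [Nonempty G]
    (R : SimpleGraph G) (M : ℝ) (h0 : 0 < M) (hc : Cert R M) :
    Cert (OrK j R) (M / (j * (1 + M) - M)) := by
  obtain ⟨A, ha, hr, hl, hu⟩ := hc
  have hj : (1 : ℝ) ≤ j := by exact_mod_cast Nat.one_le_iff_ne_zero.mpr (NeZero.ne j)
  have hk : 0 < (j : ℝ) * (1 + M) - M := by nlinarith
  have hk1 : 1 ≤ (j : ℝ) * (1 + M) - M := by nlinarith
  have hs : ∀ x y, A x y = A y x := by
    intro x y
    have h := ork_symm _ hu x y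
    rw [Matrix.sub_apply, Matrix.sub_apply, Matrix.one_apply, Matrix.one_apply] at h
    by_cases hxy : x = y
    · rw [hxy]
    · rw [if_neg hxy, if_neg (fun h => hxy h.symm)] at h
      linarith
  obtain ⟨n, hn⟩ : ∃ n : ℝ, n = Fintype.card G := ⟨_, rfl⟩
  have hn0 : 0 < n := by
    rw [hn]
    exact_mod_cast Fintype.card_pos
  obtain ⟨b, hb⟩ : ∃ b : ℝ, b = 1 / ((j : ℝ) * (1 + M) - M) := ⟨_, rfl⟩
  have hb0 : 0 < b := by
    rw [hb]
    positivity
  have hb1 : b ≤ 1 := by
    rw [hb, div_le_one hk]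
    exact hk1
  have hbk : b * ((j : ℝ) * (1 + M) - M) = 1 := by
    rw [hb]
    field_simp
  have hbM : M / (j * (1 + M) - M) = b * M := by
    rw [hb]
    ring
  obtain ⟨e, he⟩ : ∃ e : ℝ, e = b * (1 + M) / n := ⟨_, rfl⟩
  have he0 : 0 < e := by
    rw [he]
    positivity
  have hen : e * n = b * (1 + M) := by
    rw [he]
    field_simp
  have hsA : ∀ x y : ZMod j × G, ork_A A b e x y = ork_A A b e y x := by
    intro x y
    unfold ork_A
    rw [hs x.2 y.2]
    by_cases h : x.1 = y.1
    · rw [if_pos h, if_pos h.symm]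
    · rw [if_neg h, if_neg (fun hc => h hc.symm)]
  have hcj : (Fintype.card (ZMod j) : ℝ) = j := by rw [ZMod.card]
  rw [hbM]
  refine ⟨ork_A A b e, fun x y hxy => ?_, fun x => ?_, ork_psd _ (fun x y => ?_) fun f => ?_,
    ork_psd _ (fun x y => ?_) fun f => ?_⟩
  · have h1 : x.1 = y.1 := by
      by_contra hc
      exact hxy (Or.inl hc)
    unfold ork_A
    rw [if_pos h1, ha x.2 y.2 (fun h => hxy (Or.inr h)), mul_zero]
  · rw [Fintype.sum_prod_type]
    have h1 : ∀ i' : ZMod j, ∑ g', ork_A A b e x (i', g') =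
        (if x.1 = i' then b - e * n else 0) + e * n := by
      intro i'
      by_cases h : x.1 = i'
      · have h3 : ∀ g', ork_A A b e x (i', g') = b * A x.2 g' := by
          intro g'
          unfold ork_A
          rw [if_pos h]
        simp only [h3, ← Finset.mul_sum, hr x.2]
        rw [if_pos h]
        ring
      · have h3 : ∀ g', ork_A A b e x (i', g') = e := by
          intro g'
          unfold ork_A
          rw [if_neg h]
        simp only [h3, Finset.sum_const, Finset.card_univ, nsmul_eq_mul, ← hn]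
        rw [if_neg h]
        ring
    simp only [h1, Finset.sum_add_distrib, Finset.sum_ite_eq, Finset.mem_univ, if_true,
      Finset.sum_const, Finset.card_univ, nsmul_eq_mul, hcj, hen]
    linarith
  · rw [Matrix.add_apply, Matrix.add_apply, Matrix.smul_apply, Matrix.smul_apply,
      Matrix.one_apply, Matrix.one_apply, hsA x y]
    by_cases h : x = y
    · rw [if_pos h, if_pos h.symm]
    · rw [if_neg h, if_neg (fun hc => h hc.symm)]
  · have h1 : ∑ x, ∑ y, (ork_A A b e + (b * M) • (1 : Matrix (ZMod j × G) (ZMod j × G) ℝ) :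
        Matrix (ZMod j × G) (ZMod j × G) ℝ) x y *
        f x * f y = ∑ x, ∑ y, ork_A A b e x y * f x * f y + b * M * ∑ x, f x ^ 2 := by
      rw [← ork_one (b * M) f, ← Finset.sum_add_distrib]
      refine Finset.sum_congr rfl fun x _ => ?_
      rw [← Finset.sum_add_distrib]
      refine Finset.sum_congr rfl fun y _ => ?_
      rw [Matrix.add_apply]
      ring
    rw [h1, ork_A_form, Fintype.sum_prod_type]
    have h2 : ∑ i : ZMod j, (-M * ∑ g, f (i, g) ^ 2 + (1 + M) * (∑ g, f (i, g)) ^ 2 / n) ≤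
        ∑ i, ∑ g, ∑ g', A g g' * f (i, g) * f (i, g') :=
      Finset.sum_le_sum fun i _ => ork_low A M n hn hn0 hr hl hs (fun g => f (i, g))
    have h3 : ∑ i : ZMod j, (-M * ∑ g, f (i, g) ^ 2 + (1 + M) * (∑ g, f (i, g)) ^ 2 / n) =
        -M * ∑ i : ZMod j, ∑ g, f (i, g) ^ 2 +
          (1 + M) / n * ∑ i : ZMod j, (∑ g, f (i, g)) ^ 2 := by
      rw [Finset.sum_add_distrib, ← Finset.mul_sum]
      congr 1
      rw [Finset.mul_sum]
      exact Finset.sum_congr rfl fun i _ => by ring
    rw [h3] at h2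
    have h4 := mul_le_mul_of_nonneg_left h2 hb0.le
    have h5 : b * ((1 + M) / n * ∑ i : ZMod j, (∑ g, f (i, g)) ^ 2) =
        e * ∑ i : ZMod j, (∑ g, f (i, g)) ^ 2 := by
      rw [he]
      ring
    have h6 : 0 ≤ e * (∑ i, ∑ g, f (i, g)) ^ 2 := by positivity
    nlinarith
  · rw [Matrix.sub_apply, Matrix.sub_apply, Matrix.one_apply, Matrix.one_apply, hsA x y]
    by_cases h : x = y
    · rw [if_pos h, if_pos h.symm]
    · rw [if_neg h, if_neg (fun hc => h hc.symm)]
  · have h1 : ∑ x, ∑ y, ((1 : Matrix (ZMod j × G) (ZMod j × G) ℝ) - ork_A A b e :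
        Matrix (ZMod j × G) (ZMod j × G) ℝ) x y *
        f x * f y = ∑ x, f x ^ 2 - ∑ x, ∑ y, ork_A A b e x y * f x * f y := by
      have e1 := ork_one 1 f
      rw [one_smul, one_mul] at e1
      rw [← e1, ← Finset.sum_sub_distrib]
      refine Finset.sum_congr rfl fun x _ => ?_
      rw [← Finset.sum_sub_distrib]
      refine Finset.sum_congr rfl fun y _ => ?_
      rw [Matrix.sub_apply]
      ring
    rw [h1, ork_A_form, Fintype.sum_prod_type]
    have h2 : ∑ i, ∑ g, ∑ g', A g g' * f (i, g) * f (i, g') ≤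
        ∑ i : ZMod j, ∑ g, f (i, g) ^ 2 :=
      Finset.sum_le_sum fun i _ => ork_up A hu (fun g => f (i, g))
    have h3 : ∑ i : ZMod j, (∑ g, f (i, g)) ^ 2 ≤ n * ∑ i : ZMod j, ∑ g, f (i, g) ^ 2 := by
      rw [Finset.mul_sum]
      refine Finset.sum_le_sum fun i _ => ?_
      have h := sq_sum_le_card_mul_sum_sq (s := (Finset.univ : Finset G)) (f := fun g => f (i, g))
      rw [Finset.card_univ, ← hn] at h
      exact h
    have h4 : (∑ i : ZMod j, ∑ g, f (i, g)) ^ 2 ≤ j * ∑ i : ZMod j, (∑ g, f (i, g)) ^ 2 := by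
      have h := sq_sum_le_card_mul_sum_sq (s := (Finset.univ : Finset (ZMod j)))
        (f := fun i => ∑ g, f (i, g))
      rw [Finset.card_univ, hcj] at h
      exact h
    obtain ⟨S, hS⟩ : ∃ S, S = ∑ i : ZMod j, (∑ g, f (i, g)) ^ 2 := ⟨_, rfl⟩
    obtain ⟨q, hq⟩ : ∃ q, q = ∑ i : ZMod j, ∑ g, f (i, g) ^ 2 := ⟨_, rfl⟩
    obtain ⟨Q, hQ⟩ : ∃ Q, Q = ∑ i, ∑ g, ∑ g', A g g' * f (i, g) * f (i, g') := ⟨_, rfl⟩
    obtain ⟨t, ht⟩ : ∃ t, t = (∑ i : ZMod j, ∑ g, f (i, g)) ^ 2 := ⟨_, rfl⟩
    rw [← hS, ← hq] at h3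
    rw [← hQ, ← hq] at h2
    rw [← ht, ← hS] at h4
    rw [← hS, ← hq, ← hQ, ← ht]
    -- q - (b Q - e S + e t) ≥ 0
    have h5 : b * Q ≤ b * q := mul_le_mul_of_nonneg_left h2 hb0.le
    have h6 : e * t ≤ e * (j * S) := mul_le_mul_of_nonneg_left h4 he0.le
    have h7 : (1 - b) * (S / n) ≤ (1 - b) * q := by
      apply mul_le_mul_of_nonneg_left _ (by linarith)
      rw [div_le_iff₀ hn0]
      linarith
    have h8 : e * (j * S) - e * S = (1 - b) * (S / n) := by
      have e2 : e * ((j : ℝ) - 1) = (1 - b) / n := by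
        rw [eq_div_iff hn0.ne']
        have e3 : e * ((j : ℝ) - 1) * n = (e * n) * (j - 1) := by ring
        rw [e3, hen]
        linarith
      have e4 : e * (j * S) - e * S = e * ((j : ℝ) - 1) * S := by ring
      rw [e4, e2]
      ring
    linarith

theorem ork_vec (j : ℕ) [NeZero j] {G : Type} (R : SimpleGraph G) (θ : ℝ) (h : UpT R θ) :
    UpT (OrK j R) (j * θ) := by
  obtain ⟨d, v, h1, h2⟩ := h
  have hj : (0 : ℝ) < j := by exact_mod_cast Nat.pos_of_ne_zero (NeZero.ne j)
  obtain ⟨c, hc⟩ : ∃ c : ℝ, c = Real.sqrt j := ⟨_, rfl⟩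
  have hc0 : 0 < c := by
    rw [hc]
    exact Real.sqrt_pos.mpr hj
  have hc2 : c * c = j := by
    rw [hc]
    exact Real.mul_self_sqrt hj.le
  have hcj : (Fintype.card (ZMod j) : ℝ) = j := by rw [ZMod.card]
  have key : ∀ (i i' : ZMod j) (a a' : Fin d → ℝ),
      ∑ k : ZMod j, ((if i = k then c else 0) - 1 / c) * ((if i' = k then c else 0) - 1 / c) +
      ∑ k : ZMod j × Fin d, (if i = k.1 then c * a k.2 else 0) *
        (if i' = k.1 then c * a' k.2 else 0) =
      (if i = i' then (j : ℝ) * (1 + ∑ l, a l * a' l) else 0) - 1 := by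
    intro i i' a a'
    rw [Fintype.sum_prod_type]
    have e1 : ∀ k : ZMod j, ((if i = k then c else 0) - 1 / c) *
        ((if i' = k then c else 0) - 1 / c) =
        (if i = k then (if i = i' then (j : ℝ) else 0) else 0) - (if i = k then 1 else 0) -
          (if i' = k then 1 else 0) + 1 / j := by
      intro k
      have e2 : c * (1 / c) = 1 := by field_simp
      have e3 : 1 / c * (1 / c) = 1 / j := by
        rw [← hc2]
        field_simp
      by_cases h3 : i = k
      · by_cases h4 : i' = k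
        · rw [if_pos h3, if_pos h4, if_pos h3, if_pos h3, if_pos h4,
            if_pos (h3.trans h4.symm), ← e3, ← hc2]
          have e5 : (c - 1 / c) * (c - 1 / c) = c * c - c * (1 / c) - c * (1 / c) +
            1 / c * (1 / c) := by ring
          rw [e5, e2]
        · rw [if_pos h3, if_neg h4, if_pos h3, if_pos h3, if_neg h4,
            if_neg (fun h : i = i' => h4 (h.symm.trans h3)), ← e3]
          have e5 : (c - 1 / c) * (0 - 1 / c) = 0 - c * (1 / c) - 0 + 1 / c * (1 / c) := by ring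
          rw [e5, e2]
      · by_cases h4 : i' = k
        · rw [if_neg h3, if_pos h4, if_neg h3, if_neg h3, if_pos h4, ← e3]
          have e5 : (0 - 1 / c) * (c - 1 / c) = 0 - 0 - c * (1 / c) + 1 / c * (1 / c) := by ring
          rw [e5, e2]
        · rw [if_neg h3, if_neg h4, if_neg h3, if_neg h3, if_neg h4, ← e3]
          ring
    have e6 : ∀ k : ZMod j, ∑ l : Fin d, (if i = k then c * a l else 0) *
        (if i' = k then c * a' l else 0) =
        if i = k then (if i = i' then (j : ℝ) * ∑ l, a l * a' l else 0) else 0 := by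
      intro k
      by_cases h3 : i = k
      · by_cases h4 : i' = k
        · rw [if_pos h3, if_pos (h3.trans h4.symm), Finset.mul_sum]
          refine Finset.sum_congr rfl fun l _ => ?_
          rw [if_pos h3, if_pos h4, ← hc2]
          ring
        · rw [if_pos h3, if_neg (fun h : i = i' => h4 (h.symm.trans h3))]
          refine Finset.sum_eq_zero fun l _ => ?_
          rw [if_neg h4, mul_zero]
      · rw [if_neg h3]
        refine Finset.sum_eq_zero fun l _ => ?_
        rw [if_neg h3, zero_mul]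
    simp only [e1, e6, Finset.sum_add_distrib, Finset.sum_sub_distrib, Finset.sum_ite_eq,
      Finset.mem_univ, if_true, Finset.sum_const, Finset.card_univ, nsmul_eq_mul, hcj]
    have e7 : (j : ℝ) * (1 / j) = 1 := by field_simp
    rw [e7]
    split_ifs <;> ring
  refine ork_upt (ι := ZMod j ⊕ (ZMod j × Fin d)) _ _
    (fun y k => Sum.elim (fun k => (if y.1 = k then c else 0) - 1 / c)
      (fun k => if y.1 = k.1 then c * v y.2 k.2 else 0) k) (fun y => ?_) fun x y hxy => ?_
  · have e1 := key y.1 y.1 (v y.2) (v y.2)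
    rw [if_pos rfl] at e1
    have e2 : ∑ l, v y.2 l * v y.2 l = θ - 1 := by
      rw [← h1 y.2]
      exact Finset.sum_congr rfl fun l _ => by ring
    rw [e2] at e1
    rw [Fintype.sum_sum_type]
    simp only [Sum.elim_inl, Sum.elim_inr, pow_two]
    rw [e1]
    ring
  · have e1 := key x.1 y.1 (v x.2) (v y.2)
    rw [Fintype.sum_sum_type]
    simp only [Sum.elim_inl, Sum.elim_inr]
    rw [e1]
    by_cases h3 : x.1 = y.1
    · have h4 : R.Adj x.2 y.2 := by
        rcases hxy with h | h
        · exact absurd h3 h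
        · exact h
      rw [if_pos h3, h2 _ _ h4]
      ring
    · rw [if_neg h3]
      ring

theorem st_ORK : ST_ORK := by
  intro j C hj X
  have hG : Nonempty X.G := by
    have h := X.ind ∅ (fun a ha => absurd ha (Finset.notMem_empty a))
    rw [Finset.card_empty, mul_zero] at h
    exact Fintype.card_pos_iff.mp h
  have hj1 : (1 : ℝ) ≤ j := by exact_mod_cast Nat.one_le_iff_ne_zero.mpr (NeZero.ne j)
  have h0 := X.lo
  have h1 := X.hi
  have hk : 0 < (j : ℝ) * (1 + X.M) - X.M := by nlinarith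
  have hM : (1 : ℝ) + 1 / (X.M / (j * (1 + X.M) - X.M)) = j * (1 + 1 / X.M) := by
    rw [one_div_div]
    field_simp
    ring
  refine ⟨{ G := ZMod j × X.G
            R := OrK j X.R
            M := X.M / (j * (1 + X.M) - X.M)
            ti := ?_
            ind := ?_
            cert := ork_cert j X.R X.M X.lo X.cert
            upt := ?_
            lo := by positivity
            hi := ?_ }, hM⟩
  · intro a b g
    have h2 := X.ti a.2 b.2 g.2
    have h3 : (a + g).1 ≠ (b + g).1 ↔ a.1 ≠ b.1 := by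
      rw [Prod.fst_add, Prod.fst_add, ne_eq, ne_eq, add_left_inj]
    show ((a + g).1 ≠ (b + g).1 ∨ X.R.Adj (a + g).2 (b + g).2) ↔
      (a.1 ≠ b.1 ∨ X.R.Adj a.2 b.2)
    rw [h3, Prod.snd_add, Prod.snd_add, h2]
  · intro I hI
    have h2 : (I.image Prod.snd).card = I.card := by
      apply Finset.card_image_of_injOn
      intro a ha b hb hab
      have h3 : a.1 = b.1 := by
        by_contra hc
        exact hI a ha b hb (Or.inl hc)
      exact Prod.ext h3 hab
    have h3 : Ind X.R (I.image Prod.snd) := by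
      intro a ha b hb hab
      obtain ⟨a', ha', rfl⟩ := Finset.mem_image.mp ha
      obtain ⟨b', hb', rfl⟩ := Finset.mem_image.mp hb
      exact hI a' ha' b' hb' (Or.inr hab)
    have h4 := X.ind _ h3
    rw [h2] at h4
    rw [Fintype.card_prod, ZMod.card]
    have h5 : 1 ≤ j := Nat.one_le_iff_ne_zero.mpr (NeZero.ne j)
    exact h4.trans_le (Nat.le_mul_of_pos_left _ h5)
  · rw [hM]
    exact ork_vec j X.R _ X.upt
  · rw [div_lt_one hk]
    nlinarith

end Pool.Agent.Helper14.FO
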